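import Mathlib

/-!
Ranks of integer matrices over fields, ranks of entrywise polynomials, diagonally dominant matrices
over valued fields, independent sets.
-/

set_option autoImplicit false

namespace Pool.Agent.H7.RD

open Finset Module

/-! ### minors -/

theorem exists_rows {K : Type*} [Field K] {α β : Type*} [Fintype α] [Fintype β]
    (M : Matrix α β K) :
    ∃ T : Finset α, T.card = M.rank ∧ LinearIndependent K (fun a : T => M.row a) ∧
      ∀ a, M.row a ∈ Submodule.span K (M.row '' (T : Set α)) := by
  classical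
  obtain ⟨b, hb, hspan, hli⟩ := exists_linearIndependent K (Set.range M.row)
  have hfin : b.Finite := (Set.finite_range M.row).subset hb
  have : ∀ v : b, ∃ a, M.row a = v := fun v => hb v.2
  choose f hf using this
  have : Fintype b := hfin.fintype
  have hinj : Function.Injective f := by
    intro v w hvw
    apply Subtype.ext
    rw [← hf v, ← hf w, hvw]
  refine ⟨univ.image f, ?_, ?_, ?_⟩
  · rw [card_image_of_injective _ hinj, Matrix.rank_eq_finrank_span_row, ← hspan, card_univ]
    have := finrank_span_eq_card hli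
    rw [Subtype.range_coe] at this
    exact this.symm
  · have h1 : ∀ a : (univ.image f : Finset α), ∃ v : b, f v = a := by
      intro a
      have := a.2
      rw [mem_image] at this
      obtain ⟨v, _, hv⟩ := this
      exact ⟨v, hv⟩
    choose g hg using h1
    have hg' : Function.Injective g := by
      intro a a' h
      apply Subtype.ext
      rw [← hg a, ← hg a', h]
    have h2 := hli.comp g hg'
    have h3 : (fun a : (univ.image f : Finset α) => M.row a) = (fun v : b => (v : β → K)) ∘ g := by
      funext a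
      rw [Function.comp_apply, ← hf (g a), hg a]
    rw [h3]
    exact h2
  · intro a
    have h1 : M.row '' ((univ.image f : Finset α) : Set α) = b := by
      ext v
      constructor
      · rintro ⟨a, ha, rfl⟩
        rw [mem_coe, mem_image] at ha
        obtain ⟨y, _, rfl⟩ := ha
        rw [hf]
        exact y.2
      · intro hv
        exact ⟨f ⟨v, hv⟩, by simp, hf _⟩
    rw [h1, hspan]
    exact Submodule.subset_span ⟨a, rfl⟩

theorem exists_minor {K : Type*} [Field K] {α β : Type*} [Fintype α] [Fintype β] [DecidableEq α]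
    (M : Matrix α β K) :
    ∃ (T : Finset α) (f : T → β), T.card = M.rank ∧
      (M.submatrix (fun a : T => a.1) f).det ≠ 0 := by
  classical
  obtain ⟨T, hT, hli, -⟩ := exists_rows M
  let MT : Matrix T β K := M.submatrix (fun a : T => a.1) id
  have h1 : MT.rank = Fintype.card T := by
    have : LinearIndependent K MT.row := hli
    exact this.rank_matrix
  obtain ⟨S, hS, hlS, -⟩ := exists_rows MT.transpose
  rw [Matrix.rank_transpose, h1, Fintype.card_coe] at hS
  have e : T ≃ S := Fintype.equivOfCardEq (by rw [Fintype.card_coe, Fintype.card_coe, hS])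
  refine ⟨T, fun a => (e a : β), hT, ?_⟩
  have h2 : LinearIndependent K ((M.submatrix (fun a : T => a.1) (fun a => (e a : β))).transpose.row)
      := by
    have := hlS.comp e e.injective
    exact this
  rw [Matrix.linearIndependent_rows_iff_isUnit, Matrix.isUnit_iff_isUnit_det,
    Matrix.det_transpose] at h2
  exact h2.ne_zero

/-- the rank of an integer matrix over a field is at most its rank over a field of characteristic
zero -/
theorem rank_le_rank {K L : Type*} [Field K] [Field L] [CharZero L] {α β : Type*} [Fintype α]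
    [Fintype β] (M : Matrix α β ℤ) :
    (M.map (Int.cast : ℤ → K)).rank ≤ (M.map (Int.cast : ℤ → L)).rank := by
  classical
  obtain ⟨T, f, hT, hdet⟩ := exists_minor (M.map (Int.cast : ℤ → K))
  set D : Matrix T T ℤ := M.submatrix (fun a : T => a.1) f with hD
  have h1 : (M.map (Int.cast : ℤ → K)).submatrix (fun a : T => a.1) f = (Int.castRingHom K).mapMatrix D :=
    rfl
  have h2 : D.det ≠ 0 := by
    intro h
    apply hdet
    rw [h1, ← RingHom.map_det, h, map_zero]
  have h3 : (M.map (Int.cast : ℤ → L)).submatrix (fun a : T => a.1) f = (Int.castRingHom L).mapMatrix D :=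
    rfl
  have h4 : ((M.map (Int.cast : ℤ → L)).submatrix (fun a : T => a.1) f).det ≠ 0 := by
    rw [h3, ← RingHom.map_det]
    simpa using h2
  rw [← hT]
  calc T.card = ((M.map (Int.cast : ℤ → L)).submatrix (fun a : T => a.1) f).rank := by
        rw [Matrix.rank_of_det_ne_zero h4, Fintype.card_coe]
    _ ≤ _ := Matrix.rank_submatrix_le _ _ _

/-! ### polynomials in idempotent functions -/

/-- the number of the subsets with at most `e` elements of a set with `r` elements -/
def Phi (r e : ℕ) : ℕ := ∑ i ∈ range (e + 1), r.choose i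

theorem Phi_mono {r r' e : ℕ} (h : r ≤ r') : Phi r e ≤ Phi r' e :=
  sum_le_sum fun i _ => Nat.choose_le_choose i h

theorem Phi_pos (r e : ℕ) : 1 ≤ Phi r e := by
  have : (r.choose 0) ≤ Phi r e :=
    single_le_sum (f := fun i => r.choose i) (fun _ _ => Nat.zero_le _) (mem_range.mpr (by omega))
  simpa using this

theorem Phi_le (r e : ℕ) : Phi r e ≤ (r + 1) ^ e := by
  rw [Phi, add_pow]
  refine sum_le_sum fun i hi => ?_
  rw [mem_range] at hi
  have h1 : r.choose i ≤ r ^ i := Nat.choose_le_pow r i
  have h2 : 0 < e.choose i := Nat.choose_pos (by omega)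
  calc r.choose i ≤ r ^ i := h1
    _ = r ^ i * 1 ^ (e - i) * 1 := by simp
    _ ≤ r ^ i * 1 ^ (e - i) * e.choose i := Nat.mul_le_mul_left _ h2

section poly

variable {K : Type*} [Field K] {X Y : Type*}

/-- the small subsets -/
def small (T : Finset Y) (e : ℕ) : Finset (Finset Y) := T.powerset.filter (fun S => S.card ≤ e)

/-- the span of the products of at most `e` of the functions `c y`, `y ∈ T` -/
def W (c : Y → X → K) (T : Finset Y) (e : ℕ) : Submodule K (X → K) :=
  Submodule.span K (Set.range (fun S : small T e => ∏ y ∈ S.1, c y))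

theorem card_small (T : Finset Y) (e : ℕ) :
    (small T e).card ≤ Phi T.card e := by
  classical
  rw [small, card_filter, Finset.sum_powerset_apply_card (fun m => if m ≤ e then 1 else 0)]
  simp only [smul_eq_mul, mul_ite, mul_one, mul_zero]
  rw [← sum_filter]
  refine sum_le_sum_of_subset_of_nonneg ?_ (fun _ _ _ => Nat.zero_le _)
  intro m hm
  rw [mem_filter] at hm
  rw [mem_range]
  omega

theorem finrank_W (c : Y → X → K) (T : Finset Y) (e : ℕ) :
    finrank K (W c T e) ≤ Phi T.card e := by
  classical
  have h := finrank_range_le_card (R := K) (fun S : small T e => ∏ y ∈ S.1, c y)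
  refine h.trans ?_
  rw [Fintype.card_coe]
  exact card_small T e

instance finite_W (c : Y → X → K) (T : Finset Y) (e : ℕ) : FiniteDimensional K (W c T e) :=
  FiniteDimensional.span_of_finite K (Set.finite_range _)

theorem W_mem (c : Y → X → K) (T : Finset Y) (e : ℕ) (S : Finset Y) (hS : S ⊆ T)
    (he : S.card ≤ e) : ∏ y ∈ S, c y ∈ W c T e :=
  Submodule.subset_span ⟨⟨S, mem_filter.mpr ⟨mem_powerset.mpr hS, he⟩⟩, rfl⟩

theorem W_mono (c : Y → X → K) (T : Finset Y) {e e' : ℕ} (h : e ≤ e') : W c T e ≤ W c T e' := by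
  rw [W, Submodule.span_le]
  rintro _ ⟨⟨S, hS⟩, rfl⟩
  rw [small, mem_filter, mem_powerset] at hS
  exact W_mem c T e' S hS.1 (hS.2.trans h)

theorem W_mul (c : Y → X → K) (hc : ∀ y, c y * c y = c y) (T : Finset Y) (e e' : ℕ)
    (f g : X → K) (hf : f ∈ W c T e) (hg : g ∈ W c T e') : f * g ∈ W c T (e + e') := by
  classical
  induction hf using Submodule.span_induction with
  | zero => rw [zero_mul]; exact Submodule.zero_mem _
  | add x y _ _ hx hy => rw [add_mul]; exact Submodule.add_mem _ hx hy
  | smul a x _ hx => rw [smul_mul_assoc]; exact Submodule.smul_mem _ _ hx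
  | mem x hx =>
    obtain ⟨⟨S, hS⟩, rfl⟩ := hx
    rw [small, mem_filter, mem_powerset] at hS
    induction hg using Submodule.span_induction with
    | zero => rw [mul_zero]; exact Submodule.zero_mem _
    | add x y _ _ hx hy => rw [mul_add]; exact Submodule.add_mem _ hx hy
    | smul a x _ hx => rw [mul_smul_comm]; exact Submodule.smul_mem _ _ hx
    | mem x hx =>
      obtain ⟨⟨S', hS'⟩, rfl⟩ := hx
      rw [small, mem_filter, mem_powerset] at hS'
      have h1 : (∏ y ∈ S, c y) * ∏ y ∈ S', c y = ∏ y ∈ S ∪ S', c y := by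
        have e1 : ∏ y ∈ S ∪ S', c y = (∏ y ∈ S \ S', c y) * ∏ y ∈ S', c y := by
          rw [← sdiff_union_self_eq_union, prod_union sdiff_disjoint]
        have e2 : ∏ y ∈ S, c y = (∏ y ∈ S \ S', c y) * ∏ y ∈ S ∩ S', c y := by
          rw [← prod_union (disjoint_sdiff_inter S S'), sdiff_union_inter]
        have e3 : ∏ y ∈ S', c y = (∏ y ∈ S' \ S, c y) * ∏ y ∈ S ∩ S', c y := by
          rw [inter_comm, ← prod_union (disjoint_sdiff_inter S' S), sdiff_union_inter]
        have e4 : (∏ y ∈ S ∩ S', c y) * ∏ y ∈ S ∩ S', c y = ∏ y ∈ S ∩ S', c y := by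
          rw [← prod_mul_distrib]
          exact prod_congr rfl fun y _ => hc y
        rw [e1, e2, e3]
        calc ((∏ y ∈ S \ S', c y) * ∏ y ∈ S ∩ S', c y) *
              ((∏ y ∈ S' \ S, c y) * ∏ y ∈ S ∩ S', c y) =
              (∏ y ∈ S \ S', c y) * ((∏ y ∈ S' \ S, c y) *
                ((∏ y ∈ S ∩ S', c y) * ∏ y ∈ S ∩ S', c y)) := by ring
          _ = _ := by rw [e4]
      show (∏ y ∈ S, c y) * ∏ y ∈ S', c y ∈ W c T (e + e')
      rw [h1]
      refine W_mem c T _ _ (union_subset hS.1 hS'.1) ((card_union_le _ _).trans ?_)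
      exact Nat.add_le_add hS.2 hS'.2

theorem W_pow (c : Y → X → K) (hc : ∀ y, c y * c y = c y) (T : Finset Y)
    (f : X → K) (hf : f ∈ W c T 1) (j : ℕ) : f ^ j ∈ W c T j := by
  induction j with
  | zero =>
    have := W_mem c T 0 ∅ (empty_subset _) (by simp)
    simpa using this
  | succ j ih =>
    rw [pow_succ]
    exact W_mul c hc T j 1 _ _ ih hf

theorem W_prod (c : Y → X → K) (hc : ∀ y, c y * c y = c y) (T : Finset Y)
    (f : Y → X → K) (hf : ∀ y, f y ∈ W c T 1) (m : Y → ℕ) (s : Finset Y) :
    ∏ y ∈ s, f y ^ m y ∈ W c T (∑ y ∈ s, m y) := by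
  classical
  induction s using Finset.induction_on with
  | empty =>
    have := W_mem c T 0 ∅ (empty_subset _) (by simp)
    simpa using this
  | insert a s ha ih =>
    rw [prod_insert ha, sum_insert ha]
    exact W_mul c hc T _ _ _ _ (W_pow c hc T _ (hf a) _) ih

theorem W_poly (c : Y → X → K) (hc : ∀ y, c y * c y = c y) (T : Finset Y)
    (hT : ∀ y, c y ∈ W c T 1) (e : ℕ) (P : MvPolynomial Y K) (hP : P.totalDegree ≤ e) :
    (fun x => MvPolynomial.eval (fun y => c y x) P) ∈ W c T e := by
  have h : (fun x => MvPolynomial.eval (fun y => c y x) P) =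
      ∑ d ∈ P.support, P.coeff d • ∏ y ∈ d.support, c y ^ d y := by
    funext x
    rw [MvPolynomial.eval_eq, Finset.sum_apply]
    refine Finset.sum_congr rfl fun d _ => ?_
    simp [Finset.prod_apply]
  rw [h]
  refine Submodule.sum_mem _ fun d hd => Submodule.smul_mem _ _ ?_
  refine W_mono c T ?_ (W_prod c hc T c hT d d.support)
  refine le_trans (MvPolynomial.le_totalDegree hd) hP

/-- The rank of the matrix of the values of polynomials of degree at most `e` at the rows of a
Boolean matrix. -/
theorem rank_poly [Fintype X] [Fintype Y] {X' : Type*} [Fintype X'] (F : X → Y → Bool)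
    (e : ℕ) (P : X' → MvPolynomial Y K) (hP : ∀ x, (P x).totalDegree ≤ e) :
    (Matrix.of (fun (x : X') (x' : X) =>
      MvPolynomial.eval (fun y => if F x' y then (1 : K) else 0) (P x))).rank ≤
      Phi (Matrix.of (fun (x : X) (y : Y) => if F x y then (1 : K) else 0)).rank e := by
  classical
  set M := Matrix.of (fun (x : X) (y : Y) => if F x y then (1 : K) else 0) with hM
  obtain ⟨T, hT, -, hsp⟩ := exists_rows M.transpose
  rw [Matrix.rank_transpose] at hT
  set c : Y → X → K := fun y x => if F x y then (1 : K) else 0 with hcdef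
  have hc : ∀ y, c y * c y = c y := by
    intro y
    funext x
    show (if F x y then (1 : K) else 0) * (if F x y then (1 : K) else 0) =
      (if F x y then (1 : K) else 0)
    split_ifs <;> simp
  have hTc : ∀ y, c y ∈ W c T 1 := by
    intro y
    refine (Submodule.span_le.mpr ?_) (hsp y)
    rintro _ ⟨z, hz, rfl⟩
    have := W_mem c T 1 {z} (by simpa using hz) (by simp)
    rw [prod_singleton] at this
    exact this
  rw [Matrix.rank_eq_finrank_span_row, ← hT]
  refine le_trans ?_ (finrank_W c T e)
  refine Submodule.finrank_mono ?_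
  rw [Submodule.span_le]
  rintro _ ⟨x, rfl⟩
  exact W_poly c hc T hTc e (P x) (hP x)

end poly

/-! ### dominant diagonals -/

theorem card_le_rank_of_dominant {K : Type*} [Field K] {Γ : Type*}
    [LinearOrderedCommGroupWithZero Γ] (v : Valuation K Γ) {I : Type*} [Fintype I] [DecidableEq I]
    (B : Matrix I I K) (h : ∀ i j, i ≠ j → v (B i j) < v (B i i)) (h0 : ∀ i, B i i ≠ 0) :
    Fintype.card I ≤ B.rank := by
  have hinj : Function.Injective B.mulVec := by
    rw [← Matrix.coe_mulVecLin, ← LinearMap.ker_eq_bot, LinearMap.ker_eq_bot']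
    intro c hc
    by_contra hne
    obtain ⟨i0, hi0⟩ : ∃ i, c i ≠ 0 := by
      by_contra hall
      push Not at hall
      exact hne (funext hall)
    obtain ⟨i, -, hi⟩ := exists_max_image (univ : Finset I) (fun i => v (c i)) ⟨i0, mem_univ _⟩
    have hci : 0 < v (c i) := lt_of_lt_of_le (by
      rw [zero_lt_iff]; exact (Valuation.ne_zero_iff v).mpr hi0) (hi i0 (mem_univ _))
    have hBi : 0 < v (B i i) := by
      rw [zero_lt_iff]; exact (Valuation.ne_zero_iff v).mpr (h0 i)
    have h1 : ∑ j, B i j * c j = 0 := congrFun hc i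
    rw [← Finset.add_sum_erase univ _ (mem_univ i)] at h1
    have h2 : v (∑ j ∈ univ.erase i, B i j * c j) < v (B i i * c i) := by
      refine Valuation.map_sum_lt v ?_ ?_
      · rw [Valuation.map_mul]
        exact mul_ne_zero hBi.ne' hci.ne'
      · intro j hj
        rw [Valuation.map_mul, Valuation.map_mul]
        have hj' : i ≠ j := (ne_of_mem_erase hj).symm
        calc v (B i j) * v (c j) ≤ v (B i j) * v (c i) := by gcongr; exact hi j (mem_univ _)
          _ < v (B i i) * v (c i) := by
            exact mul_lt_mul_of_pos_right (h i j hj') hci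
    have h3 : B i i * c i = -∑ j ∈ univ.erase i, B i j * c j := eq_neg_of_add_eq_zero_left h1
    rw [h3, Valuation.map_neg] at h2
    exact lt_irrefl _ h2
  rw [Matrix.mulVec_injective_iff_isUnit] at hinj
  rw [Matrix.rank_of_isUnit _ hinj]

/-! ### independent sets -/

theorem caro_wei {V : Type*} [DecidableEq V] (R : V → V → Prop) [DecidableRel R]
    (hR : ∀ x y, R x y → R y x) : ∀ (n : ℕ) (A : Finset V), A.card ≤ n →
      ∃ I ⊆ A, (∀ x ∈ I, ∀ y ∈ I, x ≠ y → ¬ R x y) ∧
        ∑ x ∈ A, (1 : ℚ) / (1 + (A.filter (fun y => x ≠ y ∧ R x y)).card) ≤ I.card := by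
  intro n
  induction n with
  | zero =>
    intro A hA
    have : A = ∅ := card_eq_zero.mp (by omega)
    subst this
    exact ⟨∅, subset_rfl, by simp, by simp⟩
  | succ n ih =>
    intro A hA
    rcases A.eq_empty_or_nonempty with rfl | hne
    · exact ⟨∅, subset_rfl, by simp, by simp⟩
    obtain ⟨v, hv, hmin⟩ := exists_min_image A
      (fun x => (A.filter (fun y => x ≠ y ∧ R x y)).card) hne
    set B := A.filter (fun y => y = v ∨ (v ≠ y ∧ R v y)) with hB
    have hvB : v ∈ B := by rw [hB, mem_filter]; exact ⟨hv, Or.inl rfl⟩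
    have hBA : B ⊆ A := filter_subset _ _
    have hBcard : B.card = 1 + (A.filter (fun y => v ≠ y ∧ R v y)).card := by
      have : B = insert v (A.filter (fun y => v ≠ y ∧ R v y)) := by
        ext y
        rw [hB, mem_filter, mem_insert, mem_filter]
        constructor
        · rintro ⟨h1, h2 | h2⟩
          · exact Or.inl h2
          · exact Or.inr ⟨h1, h2⟩
        · rintro (h1 | ⟨h1, h2⟩)
          · exact ⟨h1 ▸ hv, Or.inl h1⟩
          · exact ⟨h1, Or.inr h2⟩
      rw [this, card_insert_of_notMem, add_comm]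
      simp
    obtain ⟨I, hI, hind, hsum⟩ := ih (A \ B) (by
      have := card_sdiff_add_card_eq_card hBA
      have h1 : 0 < B.card := card_pos.mpr ⟨v, hvB⟩
      omega)
    have hvI : v ∉ I := fun h => (mem_sdiff.mp (hI h)).2 hvB
    have hvR : ∀ y ∈ I, v ≠ y → ¬ R v y := by
      intro y hy hne h
      have := mem_sdiff.mp (hI hy)
      exact this.2 (mem_filter.mpr ⟨this.1, Or.inr ⟨hne, h⟩⟩)
    refine ⟨insert v I, ?_, ?_, ?_⟩
    · intro x hx
      rw [mem_insert] at hx
      rcases hx with rfl | hx
      · exact hv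
      · exact (mem_sdiff.mp (hI hx)).1
    · intro x hx y hy hxy
      rw [mem_insert] at hx hy
      rcases hx with rfl | hx
      · rcases hy with rfl | hy
        · exact absurd rfl hxy
        · exact hvR y hy hxy
      · rcases hy with rfl | hy
        · exact fun h => hvR x hx hxy.symm (hR _ _ h)
        · exact hind x hx y hy hxy
    · rw [card_insert_of_notMem hvI, ← sum_sdiff hBA]
      push_cast
      refine add_le_add (le_trans (sum_le_sum fun x hx => ?_) hsum) ?_
      · have : ((A \ B).filter (fun y => x ≠ y ∧ R x y)).card ≤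
            (A.filter (fun y => x ≠ y ∧ R x y)).card :=
          card_le_card (filter_subset_filter _ sdiff_subset)
        have h1 : (((A \ B).filter (fun y => x ≠ y ∧ R x y)).card : ℚ) ≤
            (A.filter (fun y => x ≠ y ∧ R x y)).card := by exact_mod_cast this
        apply one_div_le_one_div_of_le
        · positivity
        · linarith
      · calc ∑ x ∈ B, (1 : ℚ) / (1 + (A.filter (fun y => x ≠ y ∧ R x y)).card)
            ≤ ∑ x ∈ B, (1 : ℚ) / (1 + (A.filter (fun y => v ≠ y ∧ R v y)).card) := by
              refine sum_le_sum fun x hx => ?_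
              have h1 : ((A.filter (fun y => v ≠ y ∧ R v y)).card : ℚ) ≤
                  (A.filter (fun y => x ≠ y ∧ R x y)).card := by
                exact_mod_cast hmin x (hBA hx)
              apply one_div_le_one_div_of_le
              · positivity
              · linarith
          _ = 1 := by
            rw [sum_const, hBcard, nsmul_eq_mul]
            push_cast
            field_simp

/-- Turán: a large independent set -/
theorem turan {V : Type*} [DecidableEq V] (R : V → V → Prop) [DecidableRel R] (A : Finset V) :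
      ∃ I ⊆ A, (∀ x ∈ I, ∀ y ∈ I, x ≠ y → ¬ R x y) ∧
        A.card ^ 2 ≤ I.card * (A.card + 2 * ((A ×ˢ A).filter (fun p => p.1 ≠ p.2 ∧ R p.1 p.2)).card) := by
  classical
  obtain ⟨I, hI, hind, hsum⟩ := caro_wei (fun x y => R x y ∨ R y x) (fun x y h => h.symm) A.card A
    le_rfl
  refine ⟨I, hI, fun x hx y hy hxy h => hind x hx y hy hxy (Or.inl h), ?_⟩
  set d : V → ℕ := fun x => (A.filter (fun y => x ≠ y ∧ (R x y ∨ R y x))).card with hd
  have h1 : ∑ x ∈ A, d x ≤ 2 * ((A ×ˢ A).filter (fun p => p.1 ≠ p.2 ∧ R p.1 p.2)).card := by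
    have e1 : ((A ×ˢ A).filter (fun p => p.1 ≠ p.2 ∧ R p.1 p.2)).card =
        ∑ x ∈ A, (A.filter (fun y => x ≠ y ∧ R x y)).card := by
      rw [card_filter, sum_product]
      refine sum_congr rfl fun x _ => ?_
      rw [card_filter]
    have e2 : ((A ×ˢ A).filter (fun p => p.1 ≠ p.2 ∧ R p.1 p.2)).card =
        ∑ x ∈ A, (A.filter (fun y => x ≠ y ∧ R y x)).card := by
      rw [card_filter, sum_product, sum_comm]
      refine sum_congr rfl fun x _ => ?_
      rw [card_filter]
      refine sum_congr rfl fun y _ => ?_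
      simp only [ne_comm]
    rw [two_mul]
    nth_rw 1 [e1]
    rw [e2, ← sum_add_distrib]
    refine sum_le_sum fun x _ => ?_
    rw [hd]
    refine le_trans (card_le_card ?_) (card_union_le _ _)
    intro y hy
    rw [mem_filter] at hy
    rw [mem_union, mem_filter, mem_filter]
    rcases hy.2.2 with h | h
    · exact Or.inl ⟨hy.1, hy.2.1, h⟩
    · exact Or.inr ⟨hy.1, hy.2.1, h⟩
  have h2 : ((A.card : ℚ)) ^ 2 ≤ (∑ x ∈ A, (1 : ℚ) / (1 + d x)) * ∑ x ∈ A, (1 + (d x : ℚ)) := by
    have := Finset.sum_sq_le_sum_mul_sum_of_sq_le_mul A (r := fun _ => (1 : ℚ))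
      (f := fun x => (1 : ℚ) / (1 + d x)) (g := fun x => 1 + (d x : ℚ))
      (fun x _ => by positivity) (fun x _ => by positivity) (fun x _ => by
        have : (1 + (d x : ℚ)) ≠ 0 := by positivity
        apply le_of_eq
        field_simp)
    simpa using this
  have h3 : ∑ x ∈ A, (1 + (d x : ℚ)) ≤
      A.card + 2 * ((A ×ˢ A).filter (fun p => p.1 ≠ p.2 ∧ R p.1 p.2)).card := by
    rw [sum_add_distrib, sum_const, nsmul_eq_mul, mul_one]
    have : ((∑ x ∈ A, d x : ℕ) : ℚ) ≤
        ((2 * ((A ×ˢ A).filter (fun p => p.1 ≠ p.2 ∧ R p.1 p.2)).card : ℕ) : ℚ) := by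
      exact_mod_cast h1
    push_cast at this
    linarith
  have h4 : ((A.card : ℚ)) ^ 2 ≤
      I.card * (A.card + 2 * ((A ×ˢ A).filter (fun p => p.1 ≠ p.2 ∧ R p.1 p.2)).card) := by
    refine h2.trans ?_
    have h5 : (0 : ℚ) ≤ ∑ x ∈ A, (1 + (d x : ℚ)) := sum_nonneg fun x _ => by positivity
    exact mul_le_mul hsum h3 h5 (Nat.cast_nonneg _)
  exact_mod_cast h4

end Pool.Agent.H7.RD
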