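import Pool.Agent.H7.RD.Sep

/-!
Isolation by distances: weighted distances modulo prime powers, few distances.
-/

set_option autoImplicit false

namespace Pool.Agent.H7.RD

open Finset Module Pool.Agent.R934.LR Pool.Agent.H630R2.LR

/-- The weighted Hamming distance of the rows `x` and `x'`. -/
def dist {K : Type} [AddCommMonoid K] {X Y : Type} [Fintype Y] (F : X → Y → Bool) (w : Y → K)
    (x x' : X) : K :=
  ∑ y, if F x y = F x' y then 0 else w y

section
variable {X Y : Type} [Fintype Y] {K : Type} [Field K]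

/-- the distance from the row `x` as a polynomial of degree one -/
noncomputable def distPoly (F : X → Y → Bool) (w : Y → K) (x : X) : MvPolynomial Y K :=
  ∑ y, MvPolynomial.C (w y) * (if F x y then 1 - MvPolynomial.X y else MvPolynomial.X y)

theorem eval_distPoly (F : X → Y → Bool) (w : Y → K) (x x' : X) :
    MvPolynomial.eval (pt K F x') (distPoly F w x) = dist F w x x' := by
  rw [distPoly, map_sum, dist]
  refine sum_congr rfl fun y _ => ?_
  rw [map_mul, MvPolynomial.eval_C]
  cases h : F x y <;> cases h' : F x' y <;> simp [pt, h']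

theorem degree_distPoly (F : X → Y → Bool) (w : Y → K) (x : X) :
    (distPoly F w x).totalDegree ≤ 1 := by
  refine MvPolynomial.totalDegree_finsetSum_le fun y _ => ?_
  refine (MvPolynomial.totalDegree_mul _ _).trans ?_
  rw [MvPolynomial.totalDegree_C, zero_add]
  split_ifs
  · refine (MvPolynomial.totalDegree_sub _ _).trans ?_
    rw [MvPolynomial.totalDegree_one, MvPolynomial.totalDegree_X]
    simp
  · rw [MvPolynomial.totalDegree_X]

theorem degree_distPoly_sub (F : X → Y → Bool) (w : Y → K) (x : X) (z : K) :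
    (distPoly F w x - MvPolynomial.C z).totalDegree ≤ 1 := by
  refine (MvPolynomial.totalDegree_sub _ _).trans ?_
  rw [MvPolynomial.totalDegree_C]
  exact max_le (degree_distPoly F w x) (Nat.zero_le _)

theorem dist_self {K : Type} [AddCommMonoid K] (F : X → Y → Bool) (w : Y → K) (x : X) :
    dist F w x x = 0 := by
  simp [dist]

theorem dist_cast (F : X → Y → Bool) (w : Y → ℤ) (x x' : X) :
    ((dist F w x x' : ℤ) : ℚ) = dist F (fun y => (w y : ℚ)) x x' := by
  rw [dist, dist, Int.cast_sum]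
  refine sum_congr rfl fun y _ => ?_
  split_ifs <;> simp

end

/-! ### few distances -/

theorem isolates_few {X Y : Type} [Fintype Y] (F : X → Y → Bool) (A : Finset X) (B : Finset Y)
    (q : ℕ) (w : X → Y → ℝ) (Z : X → Finset ℝ) (hZ : ∀ x ∈ A, (Z x).card ≤ q ∧ (0 : ℝ) ∉ Z x)
    (E : Finset (X × X))
    (hE : ∀ x ∈ A, ∀ x' ∈ A, (∃ y ∈ B, F x y ≠ F x' y) → (x, x') ∉ E →
      dist F (w x) x x' ∈ Z x) : Isolates F A B q E.card := by
  refine ⟨ℝ, inferInstance, WithZero (Multiplicative ℤ), inferInstance, 1,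
    fun x => ∏ z ∈ Z x, (distPoly F (w x) x - MvPolynomial.C z), E, le_rfl, fun x hx => ⟨?_, ?_⟩,
    fun x hx x' hx' hne hxE => ?_⟩
  · refine (MvPolynomial.totalDegree_finsetProd _ _).trans ?_
    refine (sum_le_sum fun z _ => degree_distPoly_sub F (w x) x z).trans ?_
    rw [sum_const, smul_eq_mul, mul_one]
    exact (hZ x hx).1
  · rw [map_prod, prod_ne_zero_iff]
    intro z hz
    rw [map_sub, eval_distPoly, dist_self, MvPolynomial.eval_C, zero_sub, neg_ne_zero]
    rintro rfl
    exact (hZ x hx).2 hz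
  · have h1 : MvPolynomial.eval (pt ℝ F x') (∏ z ∈ Z x, (distPoly F (w x) x - MvPolynomial.C z)) =
        0 := by
      rw [map_prod]
      refine prod_eq_zero (hE x hx x' hx' hne hxE) ?_
      rw [map_sub, eval_distPoly, MvPolynomial.eval_C, sub_self]
    have h2 : MvPolynomial.eval (pt ℝ F x) (∏ z ∈ Z x, (distPoly F (w x) x - MvPolynomial.C z)) ≠
        0 := by
      rw [map_prod, prod_ne_zero_iff]
      intro z hz
      rw [map_sub, eval_distPoly, dist_self, MvPolynomial.eval_C, zero_sub, neg_ne_zero]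
      rintro rfl
      exact (hZ x hx).2 hz
    rw [h1, map_zero, zero_lt_iff]
    exact (Valuation.ne_zero_iff _).mpr h2

/-! ### modular distances -/

theorem prod_choose (z : ℤ) (n : ℕ) :
    ∏ i ∈ range n, (z - (i + 1)) = n.factorial * Ring.choose (z - 1) n := by
  have h1 := Ring.descPochhammer_eq_factorial_smul_choose (z - 1) n
  rw [← Polynomial.eval_eq_smeval, descPochhammer_eval_eq_prod_range, nsmul_eq_mul] at h1
  rw [← h1]
  refine prod_congr rfl fun i _ => ?_
  ring

theorem mul_choose (z : ℤ) (n : ℕ) :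
    (n + 1 : ℤ) * Ring.choose z (n + 1) = z * Ring.choose (z - 1) n := by
  have h1 := prod_choose (z + 1) (n + 1)
  have h2 := prod_choose z n
  rw [prod_range_succ'] at h1
  have h3 : ∏ i ∈ range n, (z + 1 - (((i + 1 : ℕ) : ℤ) + 1)) = ∏ i ∈ range n, (z - (i + 1)) := by
    refine prod_congr rfl fun i _ => ?_
    push_cast
    ring
  rw [h3, h2, Nat.factorial_succ, add_sub_cancel_right] at h1
  push_cast at h1
  have hf : (n.factorial : ℤ) ≠ 0 := by exact_mod_cast Nat.factorial_ne_zero n
  apply mul_left_cancel₀ hf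
  linarith

theorem dvd_choose (p : ℕ) (hp : p.Prime) (a : ℕ) (z : ℤ) (hz : ¬ ((p ^ a : ℕ) : ℤ) ∣ z) :
    (p : ℤ) ∣ Ring.choose (z - 1) (p ^ a - 1) := by
  by_contra hc
  have h1 := mul_choose z (p ^ a - 1)
  have hpos : 0 < p ^ a := pow_pos hp.pos a
  have h2 : (((p ^ a - 1 : ℕ) : ℤ) + 1) = ((p ^ a : ℕ) : ℤ) := by
    have : p ^ a - 1 + 1 = p ^ a := by omega
    exact_mod_cast this
  rw [h2] at h1
  have h3 : IsCoprime ((p ^ a : ℕ) : ℤ) (Ring.choose (z - 1) (p ^ a - 1)) := by
    rw [Nat.cast_pow]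
    apply IsCoprime.pow_left
    rw [Prime.coprime_iff_not_dvd (Nat.prime_iff_prime_int.mp hp)]
    exact hc
  exact hz (h3.dvd_of_dvd_mul_right ⟨_, h1.symm⟩)

theorem isolates_mod {X Y : Type} [Fintype Y] (F : X → Y → Bool) (A : Finset X) (B : Finset Y)
    (e m p : ℕ) (hp : p.Prime) (a : X → Fin m → ℕ) (w : X → Fin m → Y → ℤ)
    (ha : ∀ x ∈ A, ∑ j, (p ^ a x j - 1) ≤ e) (E : Finset (X × X))
    (hE : ∀ x ∈ A, ∀ x' ∈ A, (∃ y ∈ B, F x y ≠ F x' y) → (x, x') ∉ E →
      ∃ j, ¬ ((p ^ a x j : ℕ) : ℤ) ∣ dist F (w x j) x x') : Isolates F A B e E.card := by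
  classical
  have : Fact p.Prime := ⟨hp⟩
  let P : X → MvPolynomial Y ℚ := fun x => ∏ j, ∏ i ∈ range (p ^ a x j - 1),
    (distPoly F (fun y => (w x j y : ℚ)) x - MvPolynomial.C ((i : ℚ) + 1))
  have heval : ∀ x x', MvPolynomial.eval (pt ℚ F x') (P x) =
      (((∏ j, ((p ^ a x j - 1).factorial : ℤ)) *
        ∏ j, Ring.choose (dist F (w x j) x x' - 1) (p ^ a x j - 1) : ℤ) : ℚ) := by
    intro x x'
    rw [← prod_mul_distrib]
    show MvPolynomial.eval (pt ℚ F x') (∏ j, ∏ i ∈ range (p ^ a x j - 1),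
      (distPoly F (fun y => (w x j y : ℚ)) x - MvPolynomial.C ((i : ℚ) + 1))) = _
    rw [map_prod, Int.cast_prod]
    refine prod_congr rfl fun j _ => ?_
    rw [map_prod, ← prod_choose, Int.cast_prod]
    refine prod_congr rfl fun i _ => ?_
    rw [map_sub, eval_distPoly, MvPolynomial.eval_C, ← dist_cast]
    push_cast
    ring
  have hfac : ∀ x, (∏ j, ((p ^ a x j - 1).factorial : ℤ)) ≠ 0 := fun x =>
    prod_ne_zero_iff.mpr fun j _ => by exact_mod_cast Nat.factorial_ne_zero _
  have hunit : ∀ x, Rat.padicValuation p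
      ((∏ j, Ring.choose (dist F (w x j) x x - 1) (p ^ a x j - 1) : ℤ) : ℚ) = 1 := by
    intro x
    have h1 : ∀ n : ℕ, Ring.choose ((0 : ℤ) - 1) n = (-1) ^ n := by
      intro n
      have h2 := prod_choose 0 n
      have h3 : ∏ i ∈ range n, ((0 : ℤ) - (i + 1)) = (-1) ^ n * n.factorial := by
        have : ∀ i ∈ range n, ((0 : ℤ) - (i + 1)) = (-1) * ((i + 1 : ℕ) : ℤ) := by
          intro i _
          push_cast
          ring
        rw [prod_congr rfl this, prod_mul_distrib, prod_const, card_range, ← Nat.cast_prod,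
          prod_range_add_one_eq_factorial]
      rw [h3] at h2
      have hf : (n.factorial : ℤ) ≠ 0 := by exact_mod_cast Nat.factorial_ne_zero n
      apply mul_left_cancel₀ hf
      linarith
    have h4 : (∏ j, Ring.choose (dist F (w x j) x x - 1) (p ^ a x j - 1) : ℤ) =
        ∏ j, (-1) ^ (p ^ a x j - 1) := by
      refine prod_congr rfl fun j _ => ?_
      rw [dist_self, h1]
    rw [h4, Int.cast_prod, map_prod]
    refine prod_eq_one fun j _ => ?_
    push_cast
    rw [map_pow, Valuation.map_neg, map_one, one_pow]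
  refine ⟨ℚ, inferInstance, _, inferInstance, Rat.padicValuation p, P, E, le_rfl,
    fun x hx => ⟨?_, ?_⟩, fun x hx x' hx' hne hxE => ?_⟩
  · refine le_trans ?_ (ha x hx)
    refine (MvPolynomial.totalDegree_finsetProd _ _).trans (sum_le_sum fun j _ => ?_)
    refine (MvPolynomial.totalDegree_finsetProd _ _).trans ?_
    refine (sum_le_sum fun i _ => degree_distPoly_sub F _ x _).trans ?_
    rw [sum_const, smul_eq_mul, mul_one, card_range]
  · rw [heval, Int.cast_mul]
    refine mul_ne_zero (by exact_mod_cast hfac x) ?_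
    intro h0
    have := hunit x
    rw [h0, map_zero] at this
    exact zero_ne_one this
  · rw [heval x x', heval x x, Int.cast_mul, Int.cast_mul, map_mul, map_mul, hunit x, mul_one]
    obtain ⟨j, hj⟩ := hE x hx x' hx' hne hxE
    have h1 : Rat.padicValuation p
        ((∏ j, Ring.choose (dist F (w x j) x x' - 1) (p ^ a x j - 1) : ℤ) : ℚ) < 1 := by
      rw [Rat.padicValuation_cast, Int.padicValuation_lt_one_iff]
      exact dvd_trans (dvd_choose p hp _ _ hj) (dvd_prod_of_mem _ (mem_univ j))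
    have h2 : 0 < Rat.padicValuation p ((∏ j, ((p ^ a x j - 1).factorial : ℤ) : ℤ) : ℚ) := by
      rw [zero_lt_iff]
      exact (Valuation.ne_zero_iff _).mpr (by exact_mod_cast hfac x)
    calc _ < Rat.padicValuation p ((∏ j, ((p ^ a x j - 1).factorial : ℤ) : ℤ) : ℚ) * 1 :=
          mul_lt_mul_of_pos_left h1 h2
      _ = _ := mul_one _

end Pool.Agent.H7.RD
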