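import Pool.Agent.H7.RD.Dist

/-!
Isolation of rows and the log-rank conjecture.
-/

set_option autoImplicit false

namespace Pool.Agent.H7.RD

open Finset Module Pool.Agent.R934.LR Pool.Agent.H630R2.LR

/-- Q1, as in the frozen statement S15531. -/
def LogRank : Prop :=
    ∃ C k : ℕ, ∀ n : ℕ, ∀ F : (Fin n → ZMod 2) → (Fin n → ZMod 2) → Bool,
      ∃ c : ℕ, ∃ owner : List Bool → Bool,
        ∃ a : List Bool → (Fin n → ZMod 2) → Bool,
        ∃ b : List Bool → (Fin n → ZMod 2) → Bool,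
        ∃ out : List Bool → Bool,
          (∀ x y : Fin n → ZMod 2,
            out (Nat.iterate
              (fun t : List Bool => t ++ [if owner t then a t x else b t y]) c []) = F x y) ∧
          (c : ℝ) ≤ (C : ℝ) * (Real.logb 2
              ((Matrix.of (fun x y : Fin n → ZMod 2 => if F x y then (1 : ℝ) else 0)).rank : ℝ)) ^ k
            + (C : ℝ)

/-- `Local P`: for some `C` and `k`, with `L = C (log₂ r) ^ k + C`, every Boolean matrix `F` of rank
at most `r`, `r ≥ 2`, contains a rectangle `A × B` of relative size at least `2 ^ (-L)` such that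
`P F A B e N` for some `e ≤ L` and some `N` with `4 Φ_e(r) N ≤ |A| ^ 2`. -/
def Local (P : ∀ {X Y : Type} [Fintype X] [Fintype Y], (X → Y → Bool) → Finset X → Finset Y →
    ℕ → ℕ → Prop) : Prop :=
  ∃ C k : ℕ, ∀ (X Y : Type) [Fintype X] [Fintype Y] [Nonempty X] [Nonempty Y] (F : X → Y → Bool)
    (r : ℕ), 2 ≤ r → rk F ≤ r →
    ∃ (A : Finset X) (B : Finset Y) (e N : ℕ), A.Nonempty ∧ B.Nonempty ∧
      (Fintype.card X : ℝ) * Fintype.card Y ≤
        (2 : ℝ) ^ ((C : ℝ) * (Real.logb 2 r) ^ k + C) * (A.card * B.card) ∧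
      (e : ℝ) ≤ (C : ℝ) * (Real.logb 2 r) ^ k + C ∧ 4 * Phi r e * N ≤ A.card ^ 2 ∧ P F A B e N

/-- `ModDist F A B e N`: for some prime power `Q ≤ e + 1` and some multiplicities `w` of the
columns, the distance of two rows `x, x' ∈ A` which are different on `B` is not divisible by `Q`,
for all but `N` pairs `(x, x')`. -/
def ModDist {X Y : Type} [Fintype X] [Fintype Y] (F : X → Y → Bool) (A : Finset X) (B : Finset Y)
    (e N : ℕ) : Prop :=
  ∃ (p a : ℕ) (w : Y → ℕ) (E : Finset (X × X)), p.Prime ∧ p ^ a ≤ e + 1 ∧ E.card ≤ N ∧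
    ∀ x ∈ A, ∀ x' ∈ A, (∃ y ∈ B, F x y ≠ F x' y) → (x, x') ∉ E → ¬ p ^ a ∣ dist F w x x'

/-- `FewDist F A B e N`: for some real weights `w` of the columns, there are for every row `x ∈ A` at
most `e` nonzero numbers such that the distance of `x` from the rows `x' ∈ A` which are different
from `x` on `B` is one of them, with at most `N` exceptional pairs `(x, x')`. -/
def FewDist {X Y : Type} [Fintype X] [Fintype Y] (F : X → Y → Bool) (A : Finset X) (B : Finset Y)
    (e N : ℕ) : Prop :=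
  ∃ (w : Y → ℝ) (Z : X → Finset ℝ) (E : Finset (X × X)),
    (∀ x ∈ A, (Z x).card ≤ e ∧ (0 : ℝ) ∉ Z x) ∧ E.card ≤ N ∧
    ∀ x ∈ A, ∀ x' ∈ A, (∃ y ∈ B, F x y ≠ F x' y) → (x, x') ∉ E → dist F w x x' ∈ Z x

section
variable {X Y : Type} [Fintype X] [Fintype Y]

omit [Fintype X] [Fintype Y] in
theorem Isolates.mono {F : X → Y → Bool} {A : Finset X} {B : Finset Y} {e N N' : ℕ}
    (h : Isolates F A B e N) (hN : N ≤ N') : Isolates F A B e N' := by
  obtain ⟨K, i1, Γ, i2, v, P, E, hE, h1, h2⟩ := h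
  exact ⟨K, i1, Γ, i2, v, P, E, hE.trans hN, h1, h2⟩

theorem isolates_of_modDist (F : X → Y → Bool) (A : Finset X) (B : Finset Y) (e N : ℕ)
    (h : ModDist F A B e N) : Isolates F A B e N := by
  obtain ⟨p, a, w, E, hp, ha, hE, h⟩ := h
  refine (isolates_mod F A B e 1 p hp (fun _ _ => a) (fun _ _ y => (w y : ℤ)) (fun x _ => ?_) E
    (fun x hx x' hx' hne hxE => ⟨0, fun hd => h x hx x' hx' hne hxE ?_⟩)).mono hE
  · simp only [univ_unique, sum_singleton]
    omega
  · have : dist F (fun y => (w y : ℤ)) x x' = ((dist F w x x' : ℕ) : ℤ) := by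
      rw [dist, dist, Nat.cast_sum]
      refine sum_congr rfl fun y _ => ?_
      split_ifs <;> simp
    rw [this] at hd
    exact_mod_cast hd

theorem isolates_of_fewDist (F : X → Y → Bool) (A : Finset X) (B : Finset Y) (e N : ℕ)
    (h : FewDist F A B e N) : Isolates F A B e N := by
  obtain ⟨w, Z, E, hZ, hE, h⟩ := h
  exact (isolates_few F A B e (fun _ => w) Z hZ E h).mono hE

/-- a protocol from local isolation -/
theorem proto_local (F : X → Y → Bool) (G e : ℕ) (hG : 1 ≤ G)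
    (h : ∀ (A : Finset X) (B : Finset Y), A.Nonempty → B.Nonempty →
      ∃ A₁ ⊆ A, ∃ B₁ ⊆ B, ∃ N, A₁.Nonempty ∧ A.card * B.card ≤ G * (A₁.card * B₁.card) ∧
        4 * Phi (rk F) e * N ≤ A₁.card ^ 2 ∧ Isolates F A₁ B₁ e N) :
    Proto F (2 * Nat.clog 2 (16 * (rk F + 1) * G * Phi (rk F) e) * Nat.clog 2 (rk F) + 2) := by
  have hΦ := Phi_pos (rk F) e
  have hq1 : 1 ≤ G * (8 * Phi (rk F) e) := Nat.mul_pos hG (by omega)
  refine Pool.Agent.R533.VC.nw F (G * (8 * Phi (rk F) e)) hq1 ?_ _ ?_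
  · intro A B hA hB
    obtain ⟨A₁, hA₁, B₁, hB₁, N, hne, hc, hN, hI⟩ := h A B hA hB
    obtain ⟨A₂, hA₂, B₂, hB₂, v, hv, hc2⟩ := mono_rect F A₁ B₁ e N (rk F) le_rfl hne hI hN
    refine ⟨A₂, hA₂.trans hA₁, B₂, hB₂.trans hB₁, v, hv, hc.trans ?_⟩
    rw [mul_assoc G]
    exact Nat.mul_le_mul_left _ hc2
  · refine le_trans ?_ (Nat.le_pow_clog (by norm_num) _)
    show 2 * rk F * (G * (8 * Phi (rk F) e)) + 2 ≤ _
    calc 2 * rk F * (G * (8 * Phi (rk F) e)) + 2
        ≤ 2 * rk F * (G * (8 * Phi (rk F) e)) + 2 * (G * (8 * Phi (rk F) e)) := by omega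
      _ = _ := by ring

end

theorem one_le_logb (r : ℕ) (hr : 2 ≤ r) : (1 : ℝ) ≤ Real.logb 2 r := by
  rw [Real.le_logb_iff_rpow_le (by norm_num) (by positivity), Real.rpow_one]
  exact_mod_cast hr

theorem logb_mono (a b : ℕ) (h : a ≤ b) : Real.logb 2 (a : ℝ) ≤ Real.logb 2 (b : ℝ) := by
  rcases Nat.eq_zero_or_pos a with h0 | h0
  · rw [h0, Nat.cast_zero, Real.logb_zero]
    exact logb_nonneg b
  · exact Real.logb_le_logb_of_le (by norm_num) (by exact_mod_cast h0) (by exact_mod_cast h)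

theorem exists_retract (X : Type) [Fintype X] [Nonempty X] (n : ℕ) (h : Fintype.card X ≤ 2 ^ n) :
    ∃ (f : (Fin n → ZMod 2) → X) (e : X → (Fin n → ZMod 2)), ∀ x, f (e x) = x := by
  classical
  have hc : Fintype.card X ≤ Fintype.card (Fin n → ZMod 2) := by
    rw [Fintype.card_fun, ZMod.card, Fintype.card_fin]
    exact h
  obtain ⟨e⟩ := Function.Embedding.nonempty_of_card_le hc
  exact ⟨Function.invFun e, e, Function.leftInverse_invFun e.injective⟩

/-- The conjecture gives large monochromatic rectangles. -/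
theorem local_of_logRank (h : LogRank)
    (P : ∀ {X Y : Type} [Fintype X] [Fintype Y], (X → Y → Bool) → Finset X → Finset Y →
      ℕ → ℕ → Prop)
    (hP : ∀ {X Y : Type} [Fintype X] [Fintype Y] (F : X → Y → Bool) (A : Finset X) (B : Finset Y)
      (v : Bool), Mono F A B v → P F A B 1 0) : Local @P := by
  classical
  obtain ⟨C, k, h⟩ := h
  refine ⟨C + 1, k, ?_⟩
  intro X Y _ _ _ _ F r hr hrk
  have hL := one_le_logb r hr
  set L := Real.logb 2 (r : ℝ) with hLdef
  have hL0 : (0 : ℝ) ≤ L := by linarith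
  -- a protocol
  obtain ⟨n, hnX, hnY⟩ : ∃ n, Fintype.card X ≤ 2 ^ n ∧ Fintype.card Y ≤ 2 ^ n :=
    ⟨Fintype.card X + Fintype.card Y,
      (Nat.lt_two_pow_self).le.trans (Nat.pow_le_pow_right (by norm_num) (Nat.le_add_right _ _)),
      (Nat.lt_two_pow_self).le.trans (Nat.pow_le_pow_right (by norm_num) (Nat.le_add_left _ _))⟩
  obtain ⟨f, e, hfe⟩ := exists_retract X n hnX
  obtain ⟨g, e', hge⟩ := exists_retract Y n hnY
  obtain ⟨c, owner, a, b, out, hout, hc⟩ := h n (fun u w => F (f u) (g w))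
  have hPr : Proto F c := by
    have h1 : Proto (fun u w => F (f u) (g w)) c := ⟨owner, a, b, out, hout⟩
    have h2 := Proto.comap h1 e e'
    have h3 : (fun (x : X) (y : Y) => F (f (e x)) (g (e' y))) = F := by
      funext x y
      rw [hfe, hge]
    exact h3 ▸ h2
  have hrk' : (Matrix.of (fun u w : Fin n → ZMod 2 =>
      if F (f u) (g w) then (1 : ℝ) else 0)).rank ≤ r := by
    refine le_trans ?_ hrk
    have : Matrix.of (fun u w : Fin n → ZMod 2 => if F (f u) (g w) then (1 : ℝ) else 0) =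
        (Matrix.of (fun (x : X) (y : Y) => if F x y then (1 : ℝ) else 0)).submatrix f g := rfl
    rw [this]
    exact Matrix.rank_submatrix_le _ _ _
  have hc' : (c : ℝ) ≤ C * L ^ k + C := by
    refine hc.trans ?_
    have := logb_mono _ _ hrk'
    have h0 := logb_nonneg (Matrix.of (fun u w : Fin n → ZMod 2 =>
      if F (f u) (g w) then (1 : ℝ) else 0)).rank
    exact add_le_add (mul_le_mul_of_nonneg_left (pow_le_pow_left₀ h0 this k)
      (Nat.cast_nonneg _)) le_rfl
  obtain ⟨A, B, v, hv, hAB⟩ := rect_of_proto F c hPr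
  have hX0 : 0 < Fintype.card X := Fintype.card_pos
  have hY0 : 0 < Fintype.card Y := Fintype.card_pos
  have hAB0 : 0 < A.card * B.card := by
    rcases Nat.eq_zero_or_pos (A.card * B.card) with h0 | h0
    · rw [h0, mul_zero] at hAB
      have := Nat.mul_pos hX0 hY0
      omega
    · exact h0
  have hLk : (0 : ℝ) ≤ L ^ k := by positivity
  have hexp : (c : ℝ) ≤ ((C + 1 : ℕ) : ℝ) * L ^ k + ((C + 1 : ℕ) : ℝ) := by
    push_cast
    nlinarith
  refine ⟨A, B, 1, 0, ?_, ?_, ?_, ?_, ?_, hP F A B v hv⟩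
  · rw [← card_pos]
    exact Nat.pos_of_mul_pos_right hAB0
  · rw [← card_pos]
    exact Nat.pos_of_mul_pos_left hAB0
  · have h1 : (Fintype.card X : ℝ) * Fintype.card Y ≤ (2 : ℝ) ^ c * (A.card * B.card) := by
      exact_mod_cast hAB
    refine h1.trans (mul_le_mul_of_nonneg_right ?_ (by positivity))
    rw [← Real.rpow_natCast]
    exact Real.rpow_le_rpow_of_exponent_le (by norm_num) hexp
  · push_cast
    have : (0 : ℝ) ≤ C := Nat.cast_nonneg _
    nlinarith
  · rw [mul_zero]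
    exact Nat.zero_le _

/-- Local isolation implies the conjecture. -/
theorem logRank_of_local (h : Local (fun F A B e N => Isolates F A B e N)) : LogRank := by
  classical
  obtain ⟨C, k, h⟩ := h
  refine ⟨(2 * (8 * C + 14) + 2) * 2 ^ (k + 1), k + 2, ?_⟩
  intro n F
  set ρ := (comm F).rank with hρ
  have hρ' : (Matrix.of (fun x y : Fin n → ZMod 2 => if F x y then (1 : ℝ) else 0)).rank = ρ := rfl
  rw [hρ']
  set r := max ρ 2 with hr
  have hr2 : 2 ≤ r := le_max_right _ _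
  set ℓ := Real.logb 2 (ρ : ℝ) with hℓ
  have hℓ0 : 0 ≤ ℓ := logb_nonneg ρ
  set L := Real.logb 2 (r : ℝ) with hL
  have hL1 : 1 ≤ L := one_le_logb r hr2
  have hLℓ : L ≤ ℓ + 1 := by
    rcases le_total 2 ρ with h2 | h2
    · have : r = ρ := max_eq_left h2
      rw [hL, this]
      linarith
    · have : r = 2 := max_eq_right h2
      rw [hL, this]
      have : Real.logb 2 ((2 : ℕ) : ℝ) = 1 := by
        rw [Nat.cast_ofNat]
        exact Real.logb_self_eq_one (by norm_num)
      linarith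
  set E := ⌈(C : ℝ) * L ^ k + C⌉₊ with hE
  have hEle : (C : ℝ) * L ^ k + C ≤ E := Nat.le_ceil _
  have hΦ := Phi_pos r E
  -- rectangles
  have hR : Pool.Agent.R533.VC.Rich F (2 ^ E * (8 * Phi r E)) := by
    intro A B hA hB
    have : Nonempty A := hA.coe_sort
    have : Nonempty B := hB.coe_sort
    obtain ⟨A₁, B₁, e, N, hA₁, hB₁, hc, he, hN, hI⟩ := h A B (fun x y => F x y) r hr2 (by
      refine le_trans ?_ (le_max_left ρ 2)
      have : Matrix.of (fun (x : A) (y : B) => if F x y then (1 : ℝ) else 0) =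
        (comm F).submatrix (fun x : A => (x : Fin n → ZMod 2))
          (fun y : B => (y : Fin n → ZMod 2)) := rfl
      show (Matrix.of (fun (x : A) (y : B) => if F x y then (1 : ℝ) else 0)).rank ≤ ρ
      rw [this]
      exact Matrix.rank_submatrix_le _ _ _)
    have hrk : rk (fun (x : A) (y : B) => F x y) ≤ r := by
      refine le_trans ?_ (le_max_left ρ 2)
      have : Matrix.of (fun (x : A) (y : B) => if F x y then (1 : ℝ) else 0) =
        (comm F).submatrix (fun x : A => (x : Fin n → ZMod 2))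
          (fun y : B => (y : Fin n → ZMod 2)) := rfl
      show (Matrix.of (fun (x : A) (y : B) => if F x y then (1 : ℝ) else 0)).rank ≤ ρ
      rw [this]
      exact Matrix.rank_submatrix_le _ _ _
    obtain ⟨A₂, hA₂, B₂, hB₂, v, hv, hc2⟩ := mono_rect (fun (x : A) (y : B) => F x y) A₁ B₁ e N r
      hrk hA₁ hI hN
    have heE : e ≤ E := by
      have : (e : ℝ) ≤ E := he.trans hEle
      exact_mod_cast this
    have hΦe : Phi r e ≤ Phi r E :=
      sum_le_sum_of_subset_of_nonneg (range_mono (by omega)) (fun _ _ _ => Nat.zero_le _)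
    refine ⟨A₂.map (Function.Embedding.subtype _), ?_, B₂.map (Function.Embedding.subtype _), ?_,
      v, ?_, ?_⟩
    · intro x hx
      rw [mem_map] at hx
      obtain ⟨y, _, rfl⟩ := hx
      exact y.2
    · intro x hx
      rw [mem_map] at hx
      obtain ⟨y, _, rfl⟩ := hx
      exact y.2
    · intro x hx y hy
      rw [mem_map] at hx hy
      obtain ⟨x', hx', rfl⟩ := hx
      obtain ⟨y', hy', rfl⟩ := hy
      exact hv x' hx' y' hy'
    · rw [card_map, card_map]
      rw [Fintype.card_coe, Fintype.card_coe] at hc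
      have h0 : (2 : ℝ) ^ ((C : ℝ) * L ^ k + C) ≤ (2 : ℝ) ^ E := by
        have := Real.rpow_le_rpow_of_exponent_le (x := 2) (by norm_num) hEle
        rwa [Real.rpow_natCast] at this
      have h1 : (A.card : ℝ) * B.card ≤ (2 : ℝ) ^ E * (A₁.card * B₁.card) :=
        hc.trans (mul_le_mul_of_nonneg_right h0 (by positivity))
      have h2 : A.card * B.card ≤ 2 ^ E * (A₁.card * B₁.card) := by exact_mod_cast h1
      calc A.card * B.card ≤ 2 ^ E * (A₁.card * B₁.card) := h2
        _ ≤ 2 ^ E * (8 * Phi r e * (A₂.card * B₂.card)) := Nat.mul_le_mul_left _ hc2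
        _ ≤ 2 ^ E * (8 * Phi r E * (A₂.card * B₂.card)) :=
            Nat.mul_le_mul_left _ (Nat.mul_le_mul_right _ (Nat.mul_le_mul_left _ hΦe))
        _ = _ := by ring
  set cl := Nat.clog 2 (r + 1) with hcl
  have hP := Pool.Agent.R533.VC.nw F (2 ^ E * (8 * Phi r E))
    (Nat.mul_pos (Nat.pos_of_ne_zero (by positivity)) (by omega)) hR (4 + (E + 1) * (cl + 1)) (by
      have h1 : r + 1 ≤ 2 ^ cl := Nat.le_pow_clog (by norm_num) _
      have h2 : Phi r E ≤ 2 ^ (cl * E) := by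
        refine (Phi_le r E).trans ?_
        rw [pow_mul]
        exact Nat.pow_le_pow_left h1 E
      have h3 : (comm F).rank ≤ r := le_max_left _ _
      have h4 : 1 ≤ 2 ^ E * (8 * Phi r E) :=
        Nat.mul_pos (Nat.pos_of_ne_zero (by positivity)) (by omega)
      calc 2 * (comm F).rank * (2 ^ E * (8 * Phi r E)) + 2
          ≤ 2 * r * (2 ^ E * (8 * Phi r E)) + 2 * (2 ^ E * (8 * Phi r E)) := by
            refine Nat.add_le_add (Nat.mul_le_mul_right _ (Nat.mul_le_mul_left _ h3)) (by omega)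
        _ = 16 * ((r + 1) * (2 ^ E * Phi r E)) := by ring
        _ ≤ 16 * (2 ^ cl * (2 ^ E * 2 ^ (cl * E))) :=
            Nat.mul_le_mul_left _ (Nat.mul_le_mul h1 (Nat.mul_le_mul_left _ h2))
        _ = 2 ^ (4 + (cl + (E + cl * E))) := by
            rw [pow_add, pow_add, pow_add]
            norm_num
        _ ≤ _ := Nat.pow_le_pow_right (by norm_num) (by nlinarith))
  obtain ⟨owner, a, b, out, hout⟩ := hP
  refine ⟨_, owner, a, b, out, hout, ?_⟩
  rw [← hρ]
  set z := ℓ + 1 with hz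
  have hz1 : 1 ≤ z := by linarith
  have hz0 : 0 ≤ z := by linarith
  have hEz : (E : ℝ) ≤ C * z ^ k + C + 1 := by
    have h1 : (E : ℝ) < (C : ℝ) * L ^ k + C + 1 := Nat.ceil_lt_add_one (by positivity)
    have h2 : L ^ k ≤ z ^ k := pow_le_pow_left₀ (by linarith) hLℓ k
    have h3 : (C : ℝ) * L ^ k ≤ C * z ^ k := mul_le_mul_of_nonneg_left h2 (Nat.cast_nonneg _)
    linarith
  have hcl1 : (cl : ℝ) ≤ z + 2 := by
    have h1 := clog_le (r + 1)
    have h2 : Real.logb 2 ((r + 1 : ℕ) : ℝ) ≤ L + 1 := by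
      have h3 : ((r + 1 : ℕ) : ℝ) ≤ r * 2 := by
        have : r + 1 ≤ r * 2 := by omega
        exact_mod_cast this
      have hr0 : (0 : ℝ) < r := by
        have : 0 < r := by omega
        exact_mod_cast this
      calc Real.logb 2 ((r + 1 : ℕ) : ℝ) ≤ Real.logb 2 ((r : ℝ) * 2) :=
            Real.logb_le_logb_of_le (by norm_num) (by positivity) h3
        _ = L + 1 := by
            rw [Real.logb_mul hr0.ne' (by norm_num), Real.logb_self_eq_one (by norm_num)]
    linarith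
  have hcl2 : (Nat.clog 2 ρ : ℝ) ≤ z := clog_le ρ
  have hzk0 : 1 ≤ z ^ k := one_le_pow₀ hz1
  have hC0 : (0 : ℝ) ≤ C := Nat.cast_nonneg _
  have hE1 : (E : ℝ) + 1 ≤ (2 * C + 2) * z ^ k := by nlinarith
  have hcl3 : (cl : ℝ) + 1 ≤ 4 * z := by linarith
  have hzk1 : z ^ (k + 1) = z ^ k * z := pow_succ _ _
  have hin : 4 + ((E : ℝ) + 1) * (cl + 1) ≤ (8 * C + 14) * z ^ (k + 1) := by
    have h1 : ((E : ℝ) + 1) * (cl + 1) ≤ ((2 * C + 2) * z ^ k) * (4 * z) :=
      mul_le_mul hE1 hcl3 (by positivity) (by positivity)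
    have h2 : (1 : ℝ) ≤ z ^ (k + 1) := one_le_pow₀ hz1
    have h3 : ((2 * (C : ℝ) + 2) * z ^ k) * (4 * z) = (8 * C + 8) * z ^ (k + 1) := by
      rw [hzk1]; ring
    rw [h3] at h1
    linarith
  have hD0 : (0 : ℝ) ≤ (8 * C + 14) * z ^ (k + 1) := by positivity
  have hmain : 2 * (4 + ((E : ℝ) + 1) * (cl + 1)) * Nat.clog 2 ρ + 2 ≤
      (2 * (8 * C + 14) + 2) * z ^ (k + 2) := by
    have h1 : (4 + ((E : ℝ) + 1) * (cl + 1)) * Nat.clog 2 ρ ≤ ((8 * C + 14) * z ^ (k + 1)) * z :=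
      mul_le_mul hin hcl2 (Nat.cast_nonneg _) hD0
    have h2 : (1 : ℝ) ≤ z ^ (k + 2) := one_le_pow₀ hz1
    have h3 : ((8 * (C : ℝ) + 14) * z ^ (k + 1)) * z = (8 * C + 14) * z ^ (k + 2) := by
      rw [show k + 2 = (k + 1) + 1 by rfl, pow_succ]; ring
    rw [h3] at h1
    nlinarith
  have hpow : z ^ (k + 2) ≤ 2 ^ (k + 1) * (ℓ ^ (k + 2) + 1) := by
    have := add_pow_le hℓ0 (zero_le_one) (k + 2)
    simpa using this
  push_cast
  refine hmain.trans ?_
  have hD1 : (0 : ℝ) ≤ 2 * (8 * C + 14) + 2 := by positivity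
  refine (mul_le_mul_of_nonneg_left hpow hD1).trans (le_of_eq ?_)
  ring

end Pool.Agent.H7.RD
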