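import Pool.Agent.H7.RD.Alg
import Pool.Graph.R_seed8.R934.LR.Mat

/-!
Rows of a Boolean matrix isolated by polynomials of low degree.
-/

set_option autoImplicit false

namespace Pool.Agent.H7.RD

open Finset Module Pool.Agent.R934.LR Pool.Agent.H630R2.LR

/-- The real rank of the matrix of a Boolean function. -/
noncomputable def rk {X Y : Type} [Fintype X] [Fintype Y] (F : X → Y → Bool) : ℕ :=
  (Matrix.of (fun (x : X) (y : Y) => if F x y then (1 : ℝ) else 0)).rank

/-- The row `x` of `F` as a point of `K ^ Y`. -/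
def pt (K : Type) [Field K] {X Y : Type} (F : X → Y → Bool) (x : X) : Y → K :=
  fun y => if F x y then 1 else 0

/-- `Isolates F A B e N`: there are a field `K` with a valuation `v` and polynomials `P x` of degree
at most `e` over `K` in the entries of a row, such that `P x` does not vanish at the row `x`
(`x ∈ A`), and such that `v` is larger for the value of `P x` at the row `x` than for its value at
the row `x'` for all pairs of rows `x, x' ∈ A` which are different on `B`, with at most `N`
exceptions. (For the trivial valuation this means that `P x` vanishes at the row `x'`.) -/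
def Isolates {X Y : Type} (F : X → Y → Bool) (A : Finset X) (B : Finset Y) (e N : ℕ) : Prop :=
  ∃ (K : Type) (_ : Field K) (Γ : Type) (_ : LinearOrderedCommGroupWithZero Γ)
    (v : Valuation K Γ) (P : X → MvPolynomial Y K) (E : Finset (X × X)),
    E.card ≤ N ∧
    (∀ x ∈ A, (P x).totalDegree ≤ e ∧ MvPolynomial.eval (pt K F x) (P x) ≠ 0) ∧
    ∀ x ∈ A, ∀ x' ∈ A, (∃ y ∈ B, F x y ≠ F x' y) → (x, x') ∉ E →
      v (MvPolynomial.eval (pt K F x') (P x)) < v (MvPolynomial.eval (pt K F x) (P x))

open Classical in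
/-- The ordered pairs of rows in `A` which are equal on `B`. -/
noncomputable def eqPairs {X Y : Type} (F : X → Y → Bool) (A : Finset X) (B : Finset Y) :
    Finset (X × X) :=
  (A ×ˢ A).filter (fun p => ∀ y ∈ B, F p.1 y = F p.2 y)

theorem mem_eqPairs {X Y : Type} (F : X → Y → Bool) (A : Finset X) (B : Finset Y) (p : X × X) :
    p ∈ eqPairs F A B ↔ (p.1 ∈ A ∧ p.2 ∈ A) ∧ ∀ y ∈ B, F p.1 y = F p.2 y := by
  simp [eqPairs]

theorem card_eqPairs {X Y : Type} (F : X → Y → Bool) (A : Finset X) (B : Finset Y) :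
    (eqPairs F A B).card = ∑ x ∈ A, (A.filter (fun x' => ∀ y ∈ B, F x y = F x' y)).card := by
  classical
  rw [eqPairs, card_filter, sum_product]
  refine sum_congr rfl fun x _ => ?_
  rw [card_filter]

section
variable {X Y : Type} [Fintype X] [Fintype Y]

theorem rank_field (K : Type) [Field K] (F : X → Y → Bool) :
    (Matrix.of (fun (x : X) (y : Y) => if F x y then (1 : K) else 0)).rank ≤ rk F := by
  have h := rank_le_rank (K := K) (L := ℝ)
    (Matrix.of (fun (x : X) (y : Y) => if F x y then (1 : ℤ) else 0))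
  have h1 : (Matrix.of (fun (x : X) (y : Y) => if F x y then (1 : ℤ) else 0)).map
      (Int.cast : ℤ → K) = Matrix.of (fun (x : X) (y : Y) => if F x y then (1 : K) else 0) := by
    ext x y
    simp only [Matrix.map_apply, Matrix.of_apply]
    split_ifs <;> simp
  have h2 : (Matrix.of (fun (x : X) (y : Y) => if F x y then (1 : ℤ) else 0)).map
      (Int.cast : ℤ → ℝ) = Matrix.of (fun (x : X) (y : Y) => if F x y then (1 : ℝ) else 0) := by
    ext x y
    simp only [Matrix.map_apply, Matrix.of_apply]
    split_ifs <;> simp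
  rw [h1, h2] at h
  exact h

/-- the main inequality -/
theorem main_ineq (F : X → Y → Bool) (A : Finset X) (B : Finset Y) (e N r : ℕ) (hr : rk F ≤ r)
    (h : Isolates F A B e N) :
    A.card ^ 2 + Phi r e * A.card ≤ 2 * Phi r e * ((eqPairs F A B).card + N) := by
  classical
  obtain ⟨K, _, Γ, _, v, P, E, hE, hP, hsep⟩ := h
  let R : X → X → Prop := fun x x' =>
    v (MvPolynomial.eval (pt K F x) (P x)) ≤ v (MvPolynomial.eval (pt K F x') (P x))
  obtain ⟨I, hIA, hI, hcard⟩ := turan R A
  -- the independent set is small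
  have hIr : I.card ≤ Phi r e := by
    let M : Matrix I I K := Matrix.of (fun x x' : I => MvPolynomial.eval (pt K F x') (P x))
    have h1 : Fintype.card I ≤ M.rank := by
      refine card_le_rank_of_dominant v M (fun x x' hxx => ?_) (fun x => (hP x (hIA x.2)).2)
      have := hI x x.2 x' x'.2 (fun h => hxx (Subtype.ext h))
      exact not_le.mp this
    have h2 : M.rank ≤ Phi (Matrix.of (fun (x : I) (y : Y) => if F x y then (1 : K) else 0)).rank e :=
      rank_poly (K := K) (fun (x : I) (y : Y) => F x y) e (fun x : I => P x)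
        (fun x => (hP x (hIA x.2)).1)
    have h3 : (Matrix.of (fun (x : I) (y : Y) => if F x y then (1 : K) else 0)).rank ≤ r := by
      refine le_trans ?_ ((rank_field K F).trans hr)
      exact Matrix.rank_submatrix_le (Matrix.of (fun (x : X) (y : Y) => if F x y then (1 : K) else 0))
        (fun x : I => (x : X)) (fun y => y)
    rw [Fintype.card_coe] at h1
    exact h1.trans (h2.trans (Phi_mono h3))
  -- the number of related pairs
  set S := eqPairs F A B with hS
  have hdiag : A.diag ⊆ S := by
    intro p hp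
    rw [mem_diag] at hp
    rw [hS, mem_eqPairs]
    exact ⟨⟨hp.1, hp.2 ▸ hp.1⟩, fun y _ => by rw [hp.2]⟩
  have hN : ((A ×ˢ A).filter (fun p => p.1 ≠ p.2 ∧ R p.1 p.2)).card + A.card ≤ S.card + N := by
    have h1 : (A ×ˢ A).filter (fun p => p.1 ≠ p.2 ∧ R p.1 p.2) ⊆ (S \ A.diag) ∪ E := by
      intro p hp
      rw [mem_filter, mem_product] at hp
      rw [mem_union, mem_sdiff, mem_diag]
      by_cases hpE : p ∈ E
      · exact Or.inr hpE
      · left
        refine ⟨?_, fun h => hp.2.1 h.2⟩
        rw [hS, mem_eqPairs]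
        refine ⟨hp.1, ?_⟩
        by_contra hcon
        push Not at hcon
        exact absurd hp.2.2 (not_le.mpr (hsep p.1 hp.1.1 p.2 hp.1.2 hcon hpE))
    have h2 := (card_le_card h1).trans (card_union_le _ _)
    have h3 := card_sdiff_add_card_eq_card hdiag
    rw [diag_card] at h3
    omega
  have h4 : A.card ^ 2 ≤ Phi r e * (A.card + 2 * ((A ×ˢ A).filter
      (fun p => p.1 ≠ p.2 ∧ R p.1 p.2)).card) := hcard.trans (Nat.mul_le_mul_right _ hIr)
  calc A.card ^ 2 + Phi r e * A.card ≤ Phi r e * (A.card + 2 * ((A ×ˢ A).filter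
      (fun p => p.1 ≠ p.2 ∧ R p.1 p.2)).card) + Phi r e * A.card := Nat.add_le_add_right h4 _
    _ = Phi r e * (2 * (((A ×ˢ A).filter
      (fun p => p.1 ≠ p.2 ∧ R p.1 p.2)).card + A.card)) := by ring
    _ ≤ Phi r e * (2 * (S.card + N)) := Nat.mul_le_mul_left _ (Nat.mul_le_mul_left _ hN)
    _ = _ := by ring

/-- many equal rows -/
theorem equal_rows (F : X → Y → Bool) (A : Finset X) (B : Finset Y) (e N r : ℕ) (hr : rk F ≤ r)
    (hA : A.Nonempty) (h : Isolates F A B e N) (hN : 4 * Phi r e * N ≤ A.card ^ 2) :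
    ∃ A' ⊆ A, (∀ x ∈ A', ∀ x' ∈ A', ∀ y ∈ B, F x y = F x' y) ∧
      A.card ≤ 4 * Phi r e * A'.card := by
  classical
  have h1 := main_ineq F A B e N r hr h
  set S := eqPairs F A B with hS
  obtain ⟨x0, hx0, hmax⟩ := exists_max_image A
    (fun x => (A.filter (fun x' => ∀ y ∈ B, F x y = F x' y)).card) hA
  refine ⟨A.filter (fun x' => ∀ y ∈ B, F x0 y = F x' y), filter_subset _ _, ?_, ?_⟩
  · intro x hx x' hx' y hy
    rw [mem_filter] at hx hx'
    rw [← hx.2 y hy, hx'.2 y hy]
  · set m := (A.filter (fun x' => ∀ y ∈ B, F x0 y = F x' y)).card with hm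
    have hSm : S.card ≤ A.card * m := by
      rw [hS, card_eqPairs]
      have := sum_le_card_nsmul A (fun x => (A.filter (fun x' => ∀ y ∈ B, F x y = F x' y)).card) m
        (fun x hx => hmax x hx)
      rw [smul_eq_mul] at this
      refine le_trans (le_of_eq ?_) this
      refine sum_congr rfl fun x _ => ?_
      congr
    have hA0 : 0 < A.card := hA.card_pos
    have h2 : A.card * A.card ≤ A.card * (4 * Phi r e * m) := by
      have e1 : 2 * (A.card ^ 2) ≤ 4 * Phi r e * S.card + 4 * Phi r e * N := by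
        have : 2 * (A.card ^ 2 + Phi r e * A.card) ≤ 2 * (2 * Phi r e * (S.card + N)) :=
          Nat.mul_le_mul_left _ h1
        calc 2 * (A.card ^ 2) ≤ 2 * (A.card ^ 2 + Phi r e * A.card) := by
              refine Nat.mul_le_mul_left _ (Nat.le_add_right _ _)
          _ ≤ 2 * (2 * Phi r e * (S.card + N)) := this
          _ = _ := by ring
      have e2 : A.card ^ 2 ≤ 4 * Phi r e * S.card := by omega
      calc A.card * A.card = A.card ^ 2 := (sq _).symm
        _ ≤ 4 * Phi r e * S.card := e2
        _ ≤ 4 * Phi r e * (A.card * m) := Nat.mul_le_mul_left _ hSm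
        _ = _ := by ring
    exact Nat.le_of_mul_le_mul_left h2 hA0

/-- a large monochromatic rectangle -/
theorem mono_rect (F : X → Y → Bool) (A : Finset X) (B : Finset Y) (e N r : ℕ) (hr : rk F ≤ r)
    (hA : A.Nonempty) (h : Isolates F A B e N) (hN : 4 * Phi r e * N ≤ A.card ^ 2) :
    ∃ A' ⊆ A, ∃ B' ⊆ B, ∃ v, Mono F A' B' v ∧
      A.card * B.card ≤ 8 * Phi r e * (A'.card * B'.card) := by
  classical
  obtain ⟨A', hA', heq, hcard⟩ := equal_rows F A B e N r hr hA h hN
  have hA0 : 0 < A.card := hA.card_pos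
  have hne : A'.Nonempty := by
    rw [nonempty_iff_ne_empty]
    rintro rfl
    rw [card_empty, mul_zero] at hcard
    omega
  obtain ⟨x0, hx0⟩ := hne
  have h1 : (B.filter (fun y => F x0 y = true)).card + (B.filter (fun y => F x0 y = false)).card
      = B.card := by
    rw [← card_filter_add_card_filter_not (s := B) (fun y => F x0 y = true)]
    congr 2
    ext y
    simp
  obtain ⟨v, hv⟩ : ∃ v, B.card ≤ 2 * (B.filter (fun y => F x0 y = v)).card := by
    by_cases hc : B.card ≤ 2 * (B.filter (fun y => F x0 y = true)).card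
    · exact ⟨true, hc⟩
    · exact ⟨false, by omega⟩
  refine ⟨A', hA', B.filter (fun y => F x0 y = v), filter_subset _ _, v, ?_, ?_⟩
  · intro x hx y hy
    rw [mem_filter] at hy
    rw [heq x hx x0 hx0 y hy.1, hy.2]
  · calc A.card * B.card ≤ (4 * Phi r e * A'.card) * (2 * (B.filter (fun y => F x0 y = v)).card) :=
          Nat.mul_le_mul hcard hv
      _ = _ := by ring

/-- The number of rows. -/
theorem card_rows (F : X → Y → Bool) (A : Finset X) (B : Finset Y) (e k r : ℕ) (hr : rk F ≤ r)
    (hdist : ∀ x ∈ A, ∀ x' ∈ A, (∀ y ∈ B, F x y = F x' y) → x = x')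
    (h : Isolates F A B e (k * A.card)) :
    A.card ≤ (2 * k + 1) * Phi r e := by
  classical
  rcases A.eq_empty_or_nonempty with rfl | hA
  · simp
  have h1 := main_ineq F A B e _ r hr h
  have hS : (eqPairs F A B).card = A.card := by
    rw [← diag_card A]
    congr 1
    ext p
    rw [mem_eqPairs, mem_diag]
    constructor
    · rintro ⟨⟨h1, h2⟩, h3⟩
      exact ⟨h1, hdist _ h1 _ h2 h3⟩
    · rintro ⟨h1, h2⟩
      exact ⟨⟨h1, h2 ▸ h1⟩, fun y _ => by rw [h2]⟩
  rw [hS] at h1
  have hA0 : 0 < A.card := hA.card_pos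
  have h2 : A.card * (A.card + Phi r e) ≤ A.card * ((2 * k + 1) * Phi r e + Phi r e) := by
    calc A.card * (A.card + Phi r e) = A.card ^ 2 + Phi r e * A.card := by ring
      _ ≤ 2 * Phi r e * (A.card + k * A.card) := h1
      _ = _ := by ring
  have h3 := Nat.le_of_mul_le_mul_left h2 hA0
  omega

omit [Fintype X] [Fintype Y] in
/-- The trivial protocol for few rows. -/
theorem proto_of_reps (F : X → Y → Bool) (A : Finset X) (m : ℕ) (hm : A.card ≤ m)
    (hrep : ∀ x, ∃ x' ∈ A, ∀ y, F x' y = F x y) : Proto F (Nat.clog 2 m + 1) := by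
  classical
  choose f hf hf' using hrep
  have h1 : Proto F (1 + Nat.clog 2 m) := by
    refine Proto.sendX (Q := A) F (fun x => ⟨f x, hf x⟩) (Nat.clog 2 m) ?_
      (fun q _ y => F q y) 1 (fun q => ?_) (fun x y => (hf' x y).symm)
    · rw [Fintype.card_coe]
      exact hm.trans (Nat.le_pow_clog (by norm_num) _)
    · exact Proto.bob _ (fun y => F q y) (fun v _ _ => v) 0
        (fun v => Proto.const _ v fun _ _ => rfl) (fun x y => rfl)
  exact h1.mono (by omega)

end

end Pool.Agent.H7.RD
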